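import Pool.Agent.helper52.OC.SpecA

/-!
# Project oc, row OR2
-/

set_option autoImplicit false

namespace OC

open scoped commutatorElement

theorem OR2 (hOB1 : OB1_stmt) : OR2_stmt := by
  intro n G _ N₀ t y A F Xh Wh c c' hP N hN hder
  obtain ⟨hnor, P, hQ⟩ := hN
  obtain ⟨-, hpow, hcj, hsq⟩ := hOB1 G N P hnor hQ
  have hn := hP.hn
  -- descending induction
  have key : ∀ d r : ℕ, r + d = n - 1 → ∀ a ∈ F, a ∈ derivedSeries G r → a ∈ N := by
    intro d
    induction d with
    | zero =>
      intro r hr a _ ha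
      have : r = n - 1 := by omega
      subst this
      exact hder ha
    | succ d ih =>
      intro r hr a haF ha
      have hle : derivedSeries G (n - 2) ≤ derivedSeries G r := derivedSeries_antitone G (by omega)
      have hX := hle hP.hX.1
      have hW := hle hP.hX.2
      have hcomm : ∀ g : G, g ∈ derivedSeries G r → a⁻¹ * cj a g ∈ derivedSeries G (r + 1) := by
        intro g hg
        have e : a⁻¹ * cj a g = ⁅a⁻¹, g⁻¹⁆ := by
          unfold cj
          rw [commutatorElement_def]
          simp only [inv_inv, mul_assoc]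
        rw [e, derivedSeries_succ]
        exact Subgroup.commutator_mem_commutator (inv_mem ha) (inv_mem hg)
      have h1 : a⁻¹ * cj a Xh ∈ N :=
        ih (r + 1) (by omega) _ (F.mul_mem (F.inv_mem haF) (hP.F3 a haF).1) (hcomm Xh hX)
      have h2 : a⁻¹ * cj a Wh ∈ N :=
        ih (r + 1) (by omega) _ (F.mul_mem (F.inv_mem haF) (hP.F3 a haF).2) (hcomm Wh hW)
      rw [(hP.F4 a haF).1] at h1
      rw [(hP.F4 a haF).2] at h2
      have h3 : a⁻¹ * cj a (y 1 0) ∈ N := hcj a _ c hP.hc.1 h1
      have h4 : a⁻¹ * cj a (y 1 1) ∈ N := hcj a _ c' hP.hc.2 h2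
      rw [hP.F2 a haF, ← mul_assoc] at h4
      have h5 : a ^ 2 ∈ N := (N.mul_mem_cancel_left h3).1 h4
      refine hpow a 2 (by norm_num) ?_
      exact_mod_cast h5
  have h0 := key (n - 1) 0 (by omega) _ hP.F1 (by rw [derivedSeries_zero]; trivial)
  exact hsq _ _ h0

end OC
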